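import Mathlib
import Pool.Agent.H319B.Final

/-!
# Irreducible odd-index Bernoulli polynomials (MP_f85b9b_nt)

For almost all primes `q` the reduced Bernoulli polynomial `R_(q+2)` is irreducible over `ℚ`: the
number of exceptional primes `q ≤ x` is `O(x / (log x) ^ 2)`.

Method: (1) the product of the denominators of a factorisation `B_n = A H` is `exp(O(√(n log n)))`,
while `A(2) H(2) = B_n(2) = n` and `B_n'(2)` is as large as `n!/(2π)^n`; Mahler measures then show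
that one of the two factors has degree `O(√(n / log n))`; (2) modulo `2` the polynomial `R_n` is
`(1+x)^(n-2) + x^(n-2)`, so that the degree of a nonconstant factor is at least the order of `2`
modulo some prime divisor of `n - 2`; (3) few primes `q` have small order of `2`.
-/

set_option autoImplicit false

namespace Pool.Agent.Results.MP_f85b9b_nt.AlmostAllPrimes

open Polynomial Pool.Agent.H319B

/-- the two descriptions of the set of exceptional primes agree up to the prime `2` -/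
theorem exc_subset (x : ℕ) : {q : ℕ | q ≤ x ∧ q.Prime ∧ q ≠ 2 ∧ ¬ ∃ R : ℚ[X],
      Polynomial.bernoulli (q + 2) = X * (X - C (1 / 2)) * (X - C 1) * R ∧ Irreducible R} ⊆
    {q : ℕ | q ≤ x ∧ q.Prime ∧ ¬ Irreducible (Rn (q + 2))} := by
  rintro q ⟨h1, h2, h3, h4⟩
  refine ⟨h1, h2, fun h5 => h4 ⟨Rn (q + 2), ?_, h5⟩⟩
  have hq := h2.odd_of_ne_two h3
  have hq' : Odd (q + 2) := by
    rcases hq with ⟨k, hk⟩
    exact ⟨k + 1, by omega⟩
  exact (Rn_spec (q + 2) (by have := h2.two_le; omega) hq').1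

theorem result :
    (∃ K : ℝ, 0 < K ∧ ∃ x₀ : ℕ, ∀ x : ℕ, x₀ ≤ x →
      ({q : ℕ | q ≤ x ∧ q.Prime ∧ q ≠ 2 ∧ ¬ ∃ R : ℚ[X],
        Polynomial.bernoulli (q + 2) = X * (X - C (1 / 2)) * (X - C 1) * R ∧
          Irreducible R}.ncard : ℝ) ≤ K * x / (Real.log x) ^ 2) ∧
    Filter.Tendsto (fun x : ℕ =>
      ({q : ℕ | q ≤ x ∧ q.Prime ∧ q ≠ 2 ∧ ¬ ∃ R : ℚ[X],
        Polynomial.bernoulli (q + 2) = X * (X - C (1 / 2)) * (X - C 1) * R ∧
          Irreducible R}.ncard : ℝ) / ({q : ℕ | q ≤ x ∧ q.Prime}.ncard : ℝ))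
      Filter.atTop (nhds 0) := by
  have hle : ∀ x : ℕ, ({q : ℕ | q ≤ x ∧ q.Prime ∧ q ≠ 2 ∧ ¬ ∃ R : ℚ[X],
      Polynomial.bernoulli (q + 2) = X * (X - C (1 / 2)) * (X - C 1) * R ∧
        Irreducible R}.ncard : ℝ) ≤
      ({q : ℕ | q ≤ x ∧ q.Prime ∧ ¬ Irreducible (Rn (q + 2))}.ncard : ℝ) := by
    intro x
    have hfin : ({q : ℕ | q ≤ x ∧ q.Prime ∧ ¬ Irreducible (Rn (q + 2))}).Finite :=
      (Set.finite_Iic x).subset (fun q hq => hq.1)
    exact_mod_cast Set.ncard_le_ncard (exc_subset x) hfin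
  obtain ⟨K, hK, x₀, hx₀⟩ := few_reducible
  refine ⟨⟨K, hK, x₀, fun x hx => (hle x).trans (hx₀ x hx)⟩, ?_⟩
  refine squeeze_zero (fun x => by positivity) (fun x => ?_) density_reducible
  exact div_le_div_of_nonneg_right (hle x) (Nat.cast_nonneg _)

end Pool.Agent.Results.MP_f85b9b_nt.AlmostAllPrimes
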