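import Mathlib
import Pool.Agent.H319B.Final

/-!
# Degrees of the rational factors of odd-index Bernoulli polynomials (MP_f85b9b_nt)
-/

set_option autoImplicit false

namespace Pool.Agent.Results.MP_f85b9b_nt.FactorDegrees

open Polynomial Pool.Agent.H319B

/-- For every odd `n ≥ 5`, the degree of a nonconstant rational factor of `R_n` is at least the
multiplicative order of `2` modulo some prime divisor of `n - 2`. Consequently `R_n` is irreducible
whenever `n - 2` is a prime for which `2` is a primitive root. -/
theorem result (n : ℕ) (hn : 5 ≤ n) (ho : Odd n) (R : ℚ[X])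
    (hR : Polynomial.bernoulli n = X * (X - C (1 / 2)) * (X - C 1) * R) :
    (∀ g : ℚ[X], g ∣ R → 0 < g.natDegree →
      ∃ l : ℕ, l.Prime ∧ l ∣ n - 2 ∧ orderOf (2 : ZMod l) ≤ g.natDegree) ∧
    ((n - 2).Prime → orderOf (2 : ZMod (n - 2)) = n - 3 → Irreducible R) := by
  have he := eq_Rn n (by omega) ho R hR
  subst he
  exact ⟨fun g hg hd => factor_degree n hn ho g hg hd, fun hp h2 => irred_primitive n hn ho hp h2⟩

end Pool.Agent.Results.MP_f85b9b_nt.FactorDegrees
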