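import Mathlib
import Pool.Agent.H319B.Final

/-!
# A large irreducible factor of every odd-index Bernoulli polynomial (MP_f85b9b_nt)
-/

set_option autoImplicit false

namespace Pool.Agent.Results.MP_f85b9b_nt.LargeFactor

open Polynomial Pool.Agent.H319B

/-- For every large odd `n` the polynomial `R_n` (of degree `n - 3`) has an irreducible factor over
`ℚ` of degree at least `n - 3 - 5 √(n / log n)`. -/
theorem result : ∃ n₀ : ℕ, ∀ n : ℕ, n₀ ≤ n → Odd n → ∃ R f : ℚ[X],
    Polynomial.bernoulli n = X * (X - C (1 / 2)) * (X - C 1) * R ∧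
      Irreducible f ∧ f ∣ R ∧ (n : ℝ) - 3 - 5 * Real.sqrt (n / Real.log n) ≤ f.natDegree := by
  obtain ⟨n₀, hn₀⟩ := large_irreducible
  refine ⟨n₀ + 3, fun n hn ho => ?_⟩
  obtain ⟨f, h1, h2, h3⟩ := hn₀ n (by omega) ho
  exact ⟨Rn n, f, (Rn_spec n (by omega) ho).1, h1, h2, h3⟩

end Pool.Agent.Results.MP_f85b9b_nt.LargeFactor
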